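import Pool.Agent.L7h30.NE.Final

/-!
# All normal extremals of the mixed second derivative on the disc spectrum space

`T = ∂²/∂x₁∂x₂` on `B(K₂)`, `‖T‖ = 2/π`. The normal extremals of `T`, i.e. the `f ∈ B(K₂)` with
`‖f‖ ≤ 1` and `T f (0) = ‖T‖`, are exactly the functions

  `f = f_* + (x₁² - x₂²)² e + i [ (b + c x₁ + d x₂) σ + (x₁² - x₂²) k ]`

with real `b, c, d`, real valued `e, k ∈ B(K₂)` and `|f| ≤ 1` everywhere, where
`f_*(x) = - (2 x₁ x₂ / |x|²) cos s`, `σ(x) = sin s / s`, `s = √(|x|² + π²/4)`; and `b, c, d, e, k` are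
unique. Equivalently: `f` takes the values `(-1)^(k+1)` at the points `± (x_k, x_k)` and `(-1)^k` at the
points `± (x_k, -x_k)`, `x_k = π √((k² - 1/4)/2)`, `k ≥ 1`; or: `f` has on the two diagonals the form
`∓ cos s + i (b + (c ± d) x) sin s / s`. The triples `(b, c, d)` which occur are exactly those with
`(2b/π)² + (c ± d)²/2 ≤ 1`; for each of them an explicit normal extremal is given, it can be perturbed by
`(x₁² - x₂²)² e` for all `e ∈ B(K₂)` with `(1 + |x|⁴) |e(x)| ≤ 1/8000`, and the set of the normal extremals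
with these parameters is infinite dimensional.

The idea of the proof of the structure theorem (interpolation formula at the nodes, uniqueness of
functions of exponential type with double zeros at the nodes, division by `x₁² - x₂²`) is joint with
helper85.
-/

set_option autoImplicit false

open Set

namespace Pool.Agent.Results.MP_7ba380_an.NormalExtremals

/-- entire functions `F` on `ℂ²` of exponential type with spectrum in the closed unit disc: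
`|F(z)| ≤ C_ε exp (|Im z| + ε |z|)` for every `ε > 0`, where `|Im z|` is the euclidean norm of the
imaginary part -/
def SpecDisc (F : ℂ × ℂ → ℂ) : Prop :=
  AnalyticOnNhd ℂ F univ ∧
    ∀ ε > 0, ∃ C : ℝ, ∀ z : ℂ × ℂ, ‖F z‖ ≤ C * Real.exp (√(z.1.im ^ 2 + z.2.im ^ 2) + ε * ‖z‖)

/-- the space `B(K₂)`: bounded functions on `ℝ²` which are restrictions of entire functions of
exponential type with spectrum in the closed unit disc -/
def B : Set (ℝ × ℝ → ℂ) :=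
  {f | (∃ M : ℝ, ∀ p, ‖f p‖ ≤ M) ∧
    ∃ F : ℂ × ℂ → ℂ, SpecDisc F ∧ ∀ x y : ℝ, f (x, y) = F ((x : ℂ), (y : ℂ))}

/-- the operator `T = ∂² / ∂x₁ ∂x₂` -/
noncomputable def T (f : ℝ × ℝ → ℂ) (p : ℝ × ℝ) : ℂ :=
  deriv (fun x : ℝ => deriv (fun y : ℝ => f (x, y)) p.2) p.1

/-- the norm of `B(K₂)`: `‖f‖ = sup |f(x)|` -/
noncomputable def supNorm (f : ℝ × ℝ → ℂ) : ℝ := ⨆ p, ‖f p‖

/-- the operator norm: `‖S‖ = sup {‖S f‖ : f ∈ B(K₂), ‖f‖ ≤ 1}` -/
noncomputable def opNorm (S : (ℝ × ℝ → ℂ) → ℝ × ℝ → ℂ) : ℝ :=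
  sSup {r | ∃ f ∈ B, supNorm f ≤ 1 ∧ r = supNorm (S f)}

/-- the normal extremals of an operator `S`: `f ∈ B(K₂)`, `‖f‖ ≤ 1`, `(S f)(0) = ‖S‖` -/
def NormalExtremal (S : (ℝ × ℝ → ℂ) → ℝ × ℝ → ℂ) (f : ℝ × ℝ → ℂ) : Prop :=
  f ∈ B ∧ supNorm f ≤ 1 ∧ S f 0 = (opNorm S : ℂ)

/-- `s = √(|x|² + π²/4)` -/
noncomputable def s (p : ℝ × ℝ) : ℝ := √(p.1 ^ 2 + p.2 ^ 2 + (Real.pi / 2) ^ 2)

/-- `f_*(x) = - (2 x₁ x₂ / |x|²) cos s` (which is `0` at the origin) -/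
noncomputable def fstar (p : ℝ × ℝ) : ℂ :=
  ((-(2 * p.1 * p.2 / (p.1 ^ 2 + p.2 ^ 2) * Real.cos (s p)) : ℝ) : ℂ)

/-- `σ(x) = sin s / s` -/
noncomputable def σ (p : ℝ × ℝ) : ℝ := Real.sin (s p) / s p

/-- `f_* + (x₁² - x₂²)² e + i [ (b + c x₁ + d x₂) σ + (x₁² - x₂²) k ]` -/
noncomputable def build (b c d : ℝ) (e k : ℝ × ℝ → ℝ) (p : ℝ × ℝ) : ℂ :=
  fstar p + (((p.1 ^ 2 - p.2 ^ 2) ^ 2 * e p : ℝ) : ℂ) +
    Complex.I * (((b + c * p.1 + d * p.2) * σ p + (p.1 ^ 2 - p.2 ^ 2) * k p : ℝ) : ℂ)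

/-- the real valued functions of `B(K₂)` -/
def RealB : Set (ℝ × ℝ → ℝ) := {e | (fun p => (e p : ℂ)) ∈ B}

/-- `x_k = π √((k² - 1/4) / 2)` -/
noncomputable def node (k : ℕ) : ℝ := Real.pi * √(((k:ℝ) ^ 2 - 1 / 4) / 2)

/-- the values at the nodes -/
def AtNodes (f : ℝ × ℝ → ℂ) : Prop := ∀ k : ℕ, 1 ≤ k →
  (f (node k, node k) = (-1) ^ (k + 1) ∧ f (-node k, -node k) = (-1) ^ (k + 1)) ∧
  (f (node k, -node k) = (-1) ^ k ∧ f (-node k, node k) = (-1) ^ k)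

/-- the form on the diagonals: `f(x, x) = - cos s + i (b + (c + d) x) sin s / s` and
`f(x, -x) = cos s + i (b + (c - d) x) sin s / s` -/
def OnDiagonals (f : ℝ × ℝ → ℂ) (b c d : ℝ) : Prop := ∀ x : ℝ,
  f (x, x) = ((-Real.cos (s (x, x)) : ℝ) : ℂ)
    + Complex.I * (((b + (c + d) * x) * σ (x, x) : ℝ) : ℂ) ∧
  f (x, -x) = ((Real.cos (s (x, x)) : ℝ) : ℂ)
    + Complex.I * (((b + (c - d) * x) * σ (x, x) : ℝ) : ℂ)

/-- the admissible parameters -/
def Admissible (b c d : ℝ) : Prop :=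
  (2 * b / Real.pi) ^ 2 + (c + d) ^ 2 / 2 ≤ 1 ∧ (2 * b / Real.pi) ^ 2 + (c - d) ^ 2 / 2 ≤ 1

/-- the explicit normal extremal with parameters `b, c, d`: its real part is `f_*` and its imaginary
part is `(b + c x₁ + d x₂) sin s / s + (x₁² - x₂²) / (2 |x|²) *
[ b (c² - d²) / (π²/4 - b²) cos s - (c x₁ - d x₂) (sin s / s + 2 cos s / |x|²) ]` -/
noncomputable def explicit (b c d : ℝ) (p : ℝ × ℝ) : ℂ :=
  fstar p + Complex.I * (((b + c * p.1 + d * p.2) * σ p +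
    (p.1 ^ 2 - p.2 ^ 2) / (2 * (p.1 ^ 2 + p.2 ^ 2)) *
    (b * (c ^ 2 - d ^ 2) / ((Real.pi / 2) ^ 2 - b ^ 2) * Real.cos (s p)
      - (c * p.1 - d * p.2) * (σ p + 2 * Real.cos (s p) / (p.1 ^ 2 + p.2 ^ 2))) : ℝ) : ℂ)

open Pool.Agent.L7h30.NE in
/-- **All normal extremals of `∂²/∂x₁∂x₂` on `B(K₂)`.** -/
theorem result :
    -- the general form
    (∀ f : ℝ × ℝ → ℂ, NormalExtremal T f ↔ ∃ (b c d : ℝ), ∃ e ∈ RealB, ∃ k ∈ RealB,
      (∀ p, ‖build b c d e k p‖ ≤ 1) ∧ f = build b c d e k) ∧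
    -- the representation is unique
    (∀ (b c d b' c' d' : ℝ), ∀ e ∈ RealB, ∀ k ∈ RealB, ∀ e' ∈ RealB, ∀ k' ∈ RealB,
      build b c d e k = build b' c' d' e' k' → b = b' ∧ c = c' ∧ d = d' ∧ e = e' ∧ k = k') ∧
    (∀ (b c d : ℝ), ∀ e ∈ RealB, ∀ k ∈ RealB, OnDiagonals (build b c d e k) b c d) ∧
    -- characterisation by the values at the nodes
    (∀ f : ℝ × ℝ → ℂ, NormalExtremal T f ↔ f ∈ B ∧ supNorm f ≤ 1 ∧ AtNodes f) ∧
    -- characterisation by the form on the diagonals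
    (∀ f : ℝ × ℝ → ℂ, NormalExtremal T f ↔
      f ∈ B ∧ supNorm f ≤ 1 ∧ ∃ b c d, OnDiagonals f b c d) ∧
    -- the parameters which occur
    (∀ b c d : ℝ, (∃ f, NormalExtremal T f ∧ OnDiagonals f b c d) ↔ Admissible b c d) ∧
    -- an explicit normal extremal for all admissible parameters
    (∀ b c d : ℝ, Admissible b c d →
      NormalExtremal T (explicit b c d) ∧ OnDiagonals (explicit b c d) b c d) ∧
    -- perturbations of the explicit normal extremals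
    (∀ b c d : ℝ, Admissible b c d → ∀ e ∈ B,
      (∀ p : ℝ × ℝ, (1 + (p.1 ^ 2 + p.2 ^ 2) ^ 2) * ‖e p‖ ≤ 1 / 8000) →
      NormalExtremal T (fun p => explicit b c d p + (((p.1 ^ 2 - p.2 ^ 2) ^ 2 : ℝ) : ℂ) * e p) ∧
      OnDiagonals (fun p => explicit b c d p + (((p.1 ^ 2 - p.2 ^ 2) ^ 2 : ℝ) : ℂ) * e p) b c d) ∧
    -- for all admissible parameters the set of the normal extremals is infinite dimensional
    (∀ b c d : ℝ, Admissible b c d →
      ∀ V : Submodule ℝ (ℝ × ℝ → ℂ), FiniteDimensional ℝ V →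
        ¬ {f | NormalExtremal T f ∧ OnDiagonals f b c d} ⊆ (V : Set (ℝ × ℝ → ℂ))) ∧
    -- perturbations of `f_*`
    (∀ e ∈ B, (∀ p : ℝ × ℝ, (p.1 ^ 2 + p.2 ^ 2) ^ 2 * ‖e p‖ ≤ 1 / 2) →
      NormalExtremal T (fun p : ℝ × ℝ => fstar p + (((p.1 ^ 2 - p.2 ^ 2) ^ 2 : ℝ) : ℂ) * e p)) := by
  refine ⟨fun f => ?_, fun b c d b' c' d' e he k hk e' he' k' hk' h => fin4 he hk he' hk' h,
    fun b c d e he k hk => diag_of_form (form_build.2 ⟨he, hk, rfl⟩), fin1, fin2, fun b c d => ?_, fun b c d h => ?_, fun b c d h e he0 he => ?_,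
    fun b c d h V hV => ?_, fun e he0 he => fin8 he0 he⟩
  · constructor
    · intro h
      obtain ⟨b, c, d, e, k, he, hk, hM, hf⟩ := (fin3 f).1 h
      exact ⟨b, c, d, e, he, k, hk, hM, hf⟩
    · rintro ⟨b, c, d, e, he, k, hk, hM, hf⟩
      exact (fin3 f).2 ⟨b, c, d, e, k, he, hk, hM, hf⟩
  · unfold Admissible
    rw [← par_eq]
    exact fin6 b c d
  · unfold Admissible at h
    rw [← par_eq] at h
    exact fin5 h.1 h.2
  · unfold Admissible at h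
    rw [← par_eq] at h
    exact fin9 h.1 h.2 he0 he
  · unfold Admissible at h
    rw [← par_eq] at h
    exact fin7 h.1 h.2 V hV

end Pool.Agent.Results.MP_7ba380_an.NormalExtremals
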